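import Pool.Agent.ACK.StmtsC

/-!
# Squad ACK, row DFS: the token list is found by the depth first search
-/

set_option autoImplicit false

namespace Pool.Agent.ACK.H88

open Pool.Agent.ACK Pool.Agent.ACK.C

theorem te_eq {t u : Tk} (h : te t u = true) : t = u := by
  unfold te at h
  rw [Bool.and_eq_true, beq_iff_eq, beq_iff_eq] at h
  exact Prod.ext h.1 h.2

theorem nz_append (l r : List Tk) (h : nz (l ++ r) = true) : nz r = true := by
  induction l with
  | nil => exact h
  | cons t l ih =>
    rw [List.cons_append, nz, Bool.and_eq_true] at h
    exact ih h.1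

theorem mt_some (e x : ℕ) (d : Bool) (r : List Tk) (h : C.mt e r = some (x, d)) :
    x < r.length ∧ r.reverse[x]? = some (e, d) := by
  induction r with
  | nil => simp [C.mt] at h
  | cons t r ih =>
    rw [C.mt] at h
    by_cases ht : t.1 = e
    · have h1 : (t.1 == e) = true := by rw [beq_iff_eq]; exact ht
      rw [h1, cond_true, Option.some.injEq, Prod.mk.injEq] at h
      obtain ⟨rfl, rfl⟩ := h
      refine ⟨by simp, ?_⟩
      rw [List.reverse_cons, List.getElem?_append_right (by simp)]
      simp [← ht]
    · have h1 : (t.1 == e) = false := by rw [beq_eq_false_iff_ne]; exact ht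
      rw [h1, cond_false] at h
      obtain ⟨h2, h3⟩ := ih h
      refine ⟨by simp; omega, ?_⟩
      rw [List.reverse_cons, List.getElem?_append_left (by simpa using h2)]
      exact h3

theorem adj_some (u t : Tk) (r : List Tk) (h : adj u t r = true) :
    ∃ k, k + 1 < r.length ∧ r.reverse[k]? = some u ∧ r.reverse[k + 1]? = some t := by
  induction r with
  | nil => simp [adj] at h
  | cons a r ih =>
    rw [adj.eq_def] at h
    simp only at h
    rw [Bool.or_eq_true] at h
    rcases h with h | h
    · cases r with
      | nil => simp at h
      | cons b r =>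
        simp only [Bool.and_eq_true] at h
        have h1 := te_eq h.1
        have h2 := te_eq h.2
        subst h1 h2
        refine ⟨r.length, by simp, ?_, ?_⟩
        · rw [List.reverse_cons, List.reverse_cons, List.append_assoc,
            List.getElem?_append_right (by simp)]
          simp
        · rw [List.reverse_cons, List.getElem?_append_right (by simp)]
          simp
    · obtain ⟨k, h1, h2, h3⟩ := ih h
      refine ⟨k, by simp; omega, ?_, ?_⟩
      · rw [List.reverse_cons, List.getElem?_append_left (by simp; omega)]
        exact h2
      · rw [List.reverse_cons, List.getElem?_append_left (by simp; omega)]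
        exact h3

theorem nb_mem (a x : ℕ) (R : List (ℕ × ℕ)) (h : x ∈ nb a R) : (a, x) ∈ R ∨ (x, a) ∈ R := by
  induction R with
  | nil => simp [nb] at h
  | cons p R ih =>
    rw [nb] at h
    by_cases h1 : p.1 = a
    · have h2 : (p.1 == a) = true := by rw [beq_iff_eq]; exact h1
      rw [h2, cond_true, List.mem_cons] at h
      rcases h with h | h
      · left
        rw [List.mem_cons]
        left
        exact Prod.ext h1.symm h
      · rcases ih h with h | h
        · left; exact List.mem_cons_of_mem _ h
        · right; exact List.mem_cons_of_mem _ h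
    · have h2 : (p.1 == a) = false := by rw [beq_eq_false_iff_ne]; exact h1
      rw [h2, cond_false] at h
      by_cases h3 : p.2 = a
      · have h4 : (p.2 == a) = true := by rw [beq_iff_eq]; exact h3
        rw [h4, cond_true, List.mem_cons] at h
        rcases h with h | h
        · right
          rw [List.mem_cons]
          left
          exact Prod.ext h h3.symm
        · rcases ih h with h | h
          · left; exact List.mem_cons_of_mem _ h
          · right; exact List.mem_cons_of_mem _ h
      · have h4 : (p.2 == a) = false := by rw [beq_eq_false_iff_ne]; exact h3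
        rw [h4, cond_false] at h
        rcases ih h with h | h
        · left; exact List.mem_cons_of_mem _ h
        · right; exact List.mem_cons_of_mem _ h

section

variable {α : Type} (F : ℕ → α)

/-- pairs of gaps with the same value -/
def Gd (p : ℕ × ℕ) : Prop := p.1 < 12 ∧ p.2 < 12 ∧ F p.1 = F p.2

theorem nb_gd {R : List (ℕ × ℕ)} (hR : ∀ p ∈ R, Gd F p) {a x : ℕ} (h : x ∈ nb a R) :
    a < 12 ∧ x < 12 ∧ F a = F x := by
  rcases nb_mem a x R h with h | h
  · exact hR _ h
  · obtain ⟨h1, h2, h3⟩ := hR _ h
    exact ⟨h2, h1, h3.symm⟩

variable (H4 : ∀ x y z t : ℕ, x < 12 → y < 12 → z < 12 → t < 12 → d4 x y z t = true →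
  F x = F y → F x = F z → F x = F t → False)

include H4 in
theorem ok3_true {R : List (ℕ × ℕ)} (hR : ∀ p ∈ R, Gd F p) {a b : ℕ} (hp : Gd F (a, b)) :
    ok3 a b R = true := by
  obtain ⟨ha, hb, hab⟩ := hp
  simp only at ha hb hab
  unfold ok3
  rw [Bool.and_eq_true, List.all_eq_true, List.all_eq_true]
  refine ⟨?_, ?_⟩
  · intro x hx
    obtain ⟨-, hx1, hx2⟩ := nb_gd F hR hx
    rw [Bool.and_eq_true, List.all_eq_true, List.all_eq_true]
    refine ⟨?_, ?_⟩
    · intro y hy
      obtain ⟨-, hy1, hy2⟩ := nb_gd F hR hy
      by_contra hc
      have hd : d4 x a b y = true := by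
        cases hh : d4 x a b y
        · exact absurd (by rw [hh]; rfl) hc
        · rfl
      exact H4 x a b y hx1 ha hb hy1 hd hx2.symm (hx2.symm.trans hab)
        (hx2.symm.trans (hab.trans hy2))
    · intro z hz
      obtain ⟨-, hz1, hz2⟩ := nb_gd F hR hz
      by_contra hc
      have hd : d4 z x a b = true := by
        cases hh : d4 z x a b
        · exact absurd (by rw [hh]; rfl) hc
        · rfl
      exact H4 z x a b hz1 hx1 ha hb hd hz2.symm (hz2.symm.trans hx2.symm)
        (hz2.symm.trans (hx2.symm.trans hab))
  · intro y hy
    obtain ⟨-, hy1, hy2⟩ := nb_gd F hR hy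
    rw [List.all_eq_true]
    intro z hz
    obtain ⟨-, hz1, hz2⟩ := nb_gd F hR hz
    by_contra hc
    have hd : d4 a b y z = true := by
      cases hh : d4 a b y z
      · exact absurd (by rw [hh]; rfl) hc
      · rfl
    exact H4 a b y z ha hb hy1 hz1 hd hab (hab.trans hy2) (hab.trans (hy2.trans hz2))

include H4 in
theorem ad_some (P : List (ℕ × ℕ)) : ∀ R : List (ℕ × ℕ), (∀ p ∈ P, Gd F p) →
    (∀ p ∈ R, Gd F p) → ∃ R', ad P R = some R' ∧ ∀ p ∈ R', Gd F p := by
  induction P with
  | nil =>
    intro R _ hR
    exact ⟨R, rfl, hR⟩
  | cons p P ih =>
    intro R hP hR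
    have h1 := ok3_true F H4 hR (hP p List.mem_cons_self)
    rw [ad, h1, cond_true]
    refine ih (p :: R) (fun q hq => hP q (List.mem_cons_of_mem _ hq)) ?_
    intro q hq
    rcases List.mem_cons.1 hq with rfl | hq
    · exact hP q List.mem_cons_self
    · exact hR q hq

end

theorem tk_eq {b : List Tk} {k : ℕ} {t : Tk} (h : b[k]? = some t) : tk b k = t := by
  unfold tk
  rw [List.getD_eq_getElem?_getD, h]
  rfl

theorem take_get {b : List Tk} {k x : ℕ} {t : Tk} (h : (b.take k)[x]? = some t) :
    b[x]? = some t := by
  rw [List.getElem?_take] at h
  split_ifs at h with hx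
  exact h

theorem dfs_row (gpb : GpbStmt) (loo : LooStmt) (big : BigStmt) (cir : CirStmt) :
    C.DfsStmt := by
  intro c C b s hS hn
  have hlen := hS.len
  have hbl : (BL C b).length = 2 * c := hS.kn.len
  have hc : 1 ≤ c := by
    have := hS.cs
    omega
  have hinj := (gpb c C b hc hS.cw hbl).2
  set F : ℕ → Quot (CR (wd c (BL C b)) s) := fun k => cl (wd c (BL C b)) s (gp c C b k) with hF
  have H4 : ∀ x y z t : ℕ, x < 12 → y < 12 → z < 12 → t < 12 → d4 x y z t = true →
      F x = F y → F x = F z → F x = F t → False := by
    intro x y z t hx hy hz ht hd h1 h2 h3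
    simp only [d4, Bool.and_eq_true, Bool.not_eq_true', beq_eq_false_iff_ne] at hd
    obtain ⟨⟨⟨⟨⟨d1, d2⟩, d3⟩, d4⟩, d5⟩, d6⟩ := hd
    have inj : ∀ i j, i < 12 → j < 12 → i ≠ j → gp c C b i ≠ gp c C b j := by
      intro i j hi hj hij he
      exact hij (hinj i (by omega) j (by omega) he)
    refine hS.sm (gp c C b x) (gp c C b y) (gp c C b z) (gp c C b t) ?_ ⟨h1, h2, h3⟩
    simp only [List.nodup_cons, List.mem_cons, List.not_mem_nil, or_false, not_or,
      not_false_eq_true, List.nodup_nil, and_true]
    exact ⟨⟨inj _ _ hx hy d1, inj _ _ hx hz d2, inj _ _ hx ht d3⟩,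
      ⟨inj _ _ hy hz d4, inj _ _ hy ht d5⟩, inj _ _ hz ht d6⟩
  have main : ∀ k, k ≤ 12 → ∃ R, ((b.take k).reverse, R) ∈ gen k ∧ ∀ p ∈ R, Gd F p := by
    intro k
    induction k with
    | zero =>
      intro _
      refine ⟨[], ?_, ?_⟩
      · simp [gen]
      · simp
    | succ k ih =>
      intro hk
      obtain ⟨R, hR, hRg⟩ := ih (by omega)
      have hkb : k < b.length := by omega
      have htake : (b.take (k + 1)).reverse = b[k] :: (b.take k).reverse := by
        rw [List.take_succ_eq_append_getElem hkb, List.reverse_append]
        rfl
      have hrr : (b.take k).reverse.reverse = b.take k := List.reverse_reverse _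
      have hrl : (b.take k).reverse.length = k := by
        rw [List.length_reverse, List.length_take]; omega
      have hbk : b[k]? = some b[k] := List.getElem?_eq_getElem hkb
      have htk : tk b k = b[k] := tk_eq hbk
      -- candidate
      have hcand : b[k] ∈ cand (b.take k).reverse := by
        have h1 : b.reverse = (b.drop (k + 1)).reverse ++ (b.take (k + 1)).reverse := by
          rw [← List.reverse_append, List.take_append_drop]
        have h2 : nz (b.take (k + 1)).reverse = true := by
          rw [h1] at hn
          exact nz_append _ _ hn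
        rw [htake, nz, Bool.and_eq_true, List.any_eq_true] at h2
        obtain ⟨-, t', ht', he⟩ := h2
        rw [te_eq he]
        exact ht'
      -- relations
      have hnr : ∀ p ∈ nr b[k] (b.take k).reverse, Gd F p := by
        intro p hp
        unfold nr at hp
        cases hm : Pool.Agent.ACK.C.mt b[k].1 (b.take k).reverse with
        | none => rw [hm] at hp; simp at hp
        | some xd =>
          obtain ⟨x, d⟩ := xd
          rw [hm] at hp
          simp only at hp
          obtain ⟨h1, h2⟩ := mt_some _ _ _ _ hm
          rw [hrl] at h1
          rw [hrr] at h2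
          have h3 : tk b x = (b[k].1, d) := tk_eq (take_get h2)
          have h4 : (tk b x).1 = (tk b k).1 := by rw [h3, htk]
          have hcc := cir c C b s hS x k h1 (by omega) h4
          rw [hrl] at hp
          by_cases hd : d = b[k].2
          · have h5 : (d == b[k].2) = true := by rw [beq_iff_eq]; exact hd
            rw [h5, cond_true] at hp
            obtain ⟨c1, c2⟩ := hcc.1 (by rw [h3, htk]; exact hd)
            simp only [List.mem_cons, List.not_mem_nil, or_false] at hp
            rcases hp with rfl | rfl
            · exact ⟨Nat.mod_lt _ (by norm_num), Nat.mod_lt _ (by norm_num), c1⟩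
            · exact ⟨by simp only; omega, by simp only; omega, c2⟩
          · have h5 : (d == b[k].2) = false := by rw [beq_eq_false_iff_ne]; exact hd
            rw [h5, cond_false] at hp
            obtain ⟨c1, c2⟩ := hcc.2 (by rw [h3, htk]; exact hd)
            simp only [List.mem_cons, List.not_mem_nil, or_false] at hp
            rcases hp with rfl | rfl
            · exact ⟨Nat.mod_lt _ (by norm_num), by simp only; omega, c1⟩
            · exact ⟨by simp only; omega, Nat.mod_lt _ (by norm_num), c2⟩
      obtain ⟨R', hR', hRg'⟩ := ad_some F H4 (nr b[k] (b.take k).reverse) R hnr hRg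
      -- local condition
      have hokh : okh b[k] (b.take k).reverse = true := by
        cases hr : (b.take k).reverse with
        | nil => rfl
        | cons u r =>
          have hk0 : 0 < k := by
            rw [hr, List.length_cons] at hrl
            omega
          have hu : tk b (k - 1) = u := by
            apply tk_eq
            have h1 : b.take k = r.reverse ++ [u] := by
              rw [← hrr, hr, List.reverse_cons]
            have h2 : (b.take k)[k - 1]? = some u := by
              rw [h1, List.getElem?_append_right]
              · have : r.reverse.length = k - 1 := by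
                  rw [hr, List.length_cons] at hrl
                  rw [List.length_reverse]; omega
                rw [this]
                simp
              · rw [hr, List.length_cons] at hrl
                rw [List.length_reverse]; omega
            exact take_get h2
          have hm1 : (k - 1 + 1) % 12 = k := by
            rw [Nat.sub_add_cancel hk0]
            exact Nat.mod_eq_of_lt (by omega)
          have hplace : ∀ v v' : Tk, adj v v' (u :: r) = true →
              ∃ k', k' + 1 < k ∧ tk b k' = v ∧ tk b (k' + 1) = v' := by
            intro v v' h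
            rw [← hr] at h
            obtain ⟨k', h1, h2, h3⟩ := adj_some _ _ _ h
            rw [hrl] at h1
            rw [hrr] at h2 h3
            exact ⟨k', h1, tk_eq (take_get h2), tk_eq (take_get h3)⟩
          simp only [okh, Bool.and_eq_true, Bool.not_eq_true']
          refine ⟨⟨?_, ?_⟩, ?_⟩
          · by_contra hc
            have h1 : te (br b[k]) u = true := by
              cases hh : te (br b[k]) u
              · exact absurd hh hc
              · rfl
            have h2 := te_eq h1
            refine loo c C b s hS (k - 1) (by omega) ?_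
            rw [hm1, htk, hu, ← h2]
            simp [br]
          · by_contra hc
            have h1 : adj u b[k] (u :: r) = true := by
              cases hh : adj u b[k] (u :: r)
              · exact absurd hh hc
              · rfl
            obtain ⟨k', g1, g2, g3⟩ := hplace _ _ h1
            refine (big c C b s hS (k - 1) (by omega) k' (by omega) (by omega)).1 ⟨?_, ?_⟩
            · rw [g2, hu]
            · rw [hm1, Nat.mod_eq_of_lt (by omega), g3, htk]
          · by_contra hc
            have h1 : adj (br b[k]) (br u) (u :: r) = true := by
              cases hh : adj (br b[k]) (br u) (u :: r)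
              · exact absurd hh hc
              · rfl
            obtain ⟨k', g1, g2, g3⟩ := hplace _ _ h1
            refine (big c C b s hS (k - 1) (by omega) k' (by omega) (by omega)).2 ⟨?_, ?_⟩
            · rw [g2, hm1, htk]
            · rw [Nat.mod_eq_of_lt (by omega), g3, hu]
      refine ⟨R', ?_, hRg'⟩
      rw [gen, List.mem_flatMap]
      refine ⟨_, hR, ?_⟩
      rw [stepl, List.mem_flatMap]
      refine ⟨b[k], hcand, ?_⟩
      simp only [hokh, cond_true, hR', htake, List.mem_singleton]
  obtain ⟨R, hR, -⟩ := main 12 le_rfl
  refine ⟨R, ?_⟩
  rw [List.take_of_length_le (by omega)] at hR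
  exact hR

end Pool.Agent.ACK.H88
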