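import Pool.Agent.Helper88_ACK.FINDfs

/-!
# Squad ACK, row FIN: kernel computation, part 5
-/

set_option autoImplicit false
set_option maxRecDepth 100000

namespace Pool.Agent.ACK.H88

open Pool.Agent.ACK Pool.Agent.ACK.C

theorem c40 : dfs 6
    ([(4, false), (3, false), (0, true), (2, false), (1, false), (0, false)], [(0, 2), (11, 3)]) = true := by decide +kernel

theorem c41 : dfs 6
    ([(1, false), (3, false), (0, true), (2, false), (1, false), (0, false)], [(1, 5), (0, 4), (0, 2), (11, 3)]) = true := by decide +kernel

theorem c42 : dfs 6
    ([(1, true), (3, false), (0, true), (2, false), (1, false), (0, false)], [(1, 4), (0, 5), (0, 2), (11, 3)]) = true := by decide +kernel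

theorem c43 : dfs 6
    ([(2, false), (3, false), (0, true), (2, false), (1, false), (0, false)], [(2, 5), (1, 4), (0, 2), (11, 3)]) = true := by decide +kernel

theorem c44 : dfs 6
    ([(2, true), (3, false), (0, true), (2, false), (1, false), (0, false)], [(2, 4), (1, 5), (0, 2), (11, 3)]) = true := by decide +kernel

theorem c45 : dfs 6
    ([(3, false), (1, true), (0, true), (2, false), (1, false), (0, false)], [(1, 3), (0, 4), (0, 2), (11, 3)]) = true := by decide +kernel

theorem c46 : dfs 6
    ([(3, false), (2, false), (0, true), (2, false), (1, false), (0, false)], [(2, 4), (1, 3), (0, 2), (11, 3)]) = true := by decide +kernel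

theorem c47 : dfs 6
    ([(4, false), (3, false), (1, false), (2, false), (1, false), (0, false)], [(1, 3), (0, 2)]) = true := by decide +kernel

theorem c48 : dfs 6
    ([(0, false), (3, false), (1, false), (2, false), (1, false), (0, false)], [(0, 5), (11, 4), (1, 3), (0, 2)]) = true := by decide +kernel

theorem c49 : dfs 6
    ([(0, true), (3, false), (1, false), (2, false), (1, false), (0, false)], [(0, 4), (11, 5), (1, 3), (0, 2)]) = true := by decide +kernel

end Pool.Agent.ACK.H88
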