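import Pool.Agent.Helper88_ACK.FINDfs

/-!
# Squad ACK, row FIN: kernel computation, part 7
-/

set_option autoImplicit false
set_option maxRecDepth 100000

namespace Pool.Agent.ACK.H88

open Pool.Agent.ACK Pool.Agent.ACK.C

theorem c60 : dfs 6
    ([(4, false), (3, false), (2, false), (0, false), (1, false), (0, false)], [(0, 2), (11, 1)]) = true := by decide +kernel

theorem c61 : dfs 6
    ([(1, false), (3, false), (2, false), (0, false), (1, false), (0, false)], [(1, 5), (0, 4), (0, 2), (11, 1)]) = true := by decide +kernel

theorem c62 : dfs 6
    ([(1, true), (3, false), (2, false), (0, false), (1, false), (0, false)], [(1, 4), (0, 5), (0, 2), (11, 1)]) = true := by decide +kernel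

theorem c63 : dfs 6
    ([(2, false), (3, false), (2, false), (0, false), (1, false), (0, false)], [(3, 5), (2, 4), (0, 2), (11, 1)]) = true := by decide +kernel

theorem c64 : dfs 6
    ([(2, true), (3, false), (2, false), (0, false), (1, false), (0, false)], [(3, 4), (2, 5), (0, 2), (11, 1)]) = true := by decide +kernel

theorem c65 : dfs 6
    ([(3, false), (3, false), (2, false), (0, false), (1, false), (0, false)], [(4, 5), (3, 4), (0, 2), (11, 1)]) = true := by decide +kernel

theorem c66 : dfs 6
    ([(3, false), (1, false), (2, false), (0, false), (1, false), (0, false)], [(1, 4), (0, 3), (0, 2), (11, 1)]) = true := by decide +kernel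

theorem c67 : dfs 6
    ([(3, false), (1, true), (2, false), (0, false), (1, false), (0, false)], [(1, 3), (0, 4), (0, 2), (11, 1)]) = true := by decide +kernel

theorem c68 : dfs 6
    ([(4, false), (3, false), (2, false), (0, true), (1, false), (0, false)], [(0, 1), (11, 2)]) = true := by decide +kernel

theorem c69 : dfs 6
    ([(2, false), (3, false), (2, false), (0, true), (1, false), (0, false)], [(3, 5), (2, 4), (0, 1), (11, 2)]) = true := by decide +kernel

end Pool.Agent.ACK.H88
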