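import Pool.Agent.Helper88_ACK.FINDfs

/-!
# Squad ACK, row FIN: kernel computation, part 8
-/

set_option autoImplicit false
set_option maxRecDepth 100000

namespace Pool.Agent.ACK.H88

open Pool.Agent.ACK Pool.Agent.ACK.C

theorem c70 : dfs 6
    ([(2, true), (3, false), (2, false), (0, true), (1, false), (0, false)], [(3, 4), (2, 5), (0, 1), (11, 2)]) = true := by decide +kernel

theorem c71 : dfs 6
    ([(3, false), (3, false), (2, false), (0, true), (1, false), (0, false)], [(4, 5), (3, 4), (0, 1), (11, 2)]) = true := by decide +kernel

theorem c72 : dfs 6
    ([(4, false), (3, false), (2, false), (1, false), (1, false), (0, false)], [(1, 2), (0, 1)]) = true := by decide +kernel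

theorem c73 : dfs 6
    ([(3, false), (3, false), (2, false), (1, false), (1, false), (0, false)], [(4, 5), (3, 4), (1, 2), (0, 1)]) = true := by decide +kernel

theorem c74 : dfs 6
    ([(3, false), (2, false), (0, true), (1, false), (1, false), (0, false)], [(0, 2), (11, 3), (1, 2), (0, 1)]) = true := by decide +kernel

theorem c75 : dfs 6
    ([(4, false), (3, false), (2, false), (1, false), (0, false), (0, false)], [(0, 1), (11, 0)]) = true := by decide +kernel

theorem c76 : dfs 6
    ([(2, false), (3, false), (2, false), (1, false), (0, false), (0, false)], [(3, 5), (2, 4), (0, 1), (11, 0)]) = true := by decide +kernel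

theorem c77 : dfs 6
    ([(2, true), (3, false), (2, false), (1, false), (0, false), (0, false)], [(3, 4), (2, 5), (0, 1), (11, 0)]) = true := by decide +kernel

theorem c78 : dfs 6
    ([(3, false), (3, false), (2, false), (1, false), (0, false), (0, false)], [(4, 5), (3, 4), (0, 1), (11, 0)]) = true := by decide +kernel

theorem c79 : dfs 6
    ([(3, false), (2, false), (2, false), (1, false), (0, false), (0, false)], [(3, 4), (2, 3), (0, 1), (11, 0)]) = true := by decide +kernel

end Pool.Agent.ACK.H88
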