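import Pool.Agent.Helper88_ACK.FINc1
import Pool.Agent.Helper88_ACK.FINc2
import Pool.Agent.Helper88_ACK.FINc3
import Pool.Agent.Helper88_ACK.FINc4
import Pool.Agent.Helper88_ACK.FINc5
import Pool.Agent.Helper88_ACK.FINc6
import Pool.Agent.Helper88_ACK.FINc7
import Pool.Agent.Helper88_ACK.FINc8

/-!
# Squad ACK, row FIN: the classification of the token lists
-/

set_option autoImplicit false
set_option maxRecDepth 100000

namespace Pool.Agent.ACK.H88

open Pool.Agent.ACK Pool.Agent.ACK.C

theorem gen6 : gen 6 = [
    ([(5, false), (4, false), (3, false), (2, false), (1, false), (0, false)], []),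
    ([(0, false), (4, false), (3, false), (2, false), (1, false), (0, false)], [(0, 5), (11, 4)]),
    ([(0, true), (4, false), (3, false), (2, false), (1, false), (0, false)], [(0, 4), (11, 5)]),
    ([(1, false), (4, false), (3, false), (2, false), (1, false), (0, false)], [(1, 5), (0, 4)]),
    ([(1, true), (4, false), (3, false), (2, false), (1, false), (0, false)], [(1, 4), (0, 5)]),
    ([(2, false), (4, false), (3, false), (2, false), (1, false), (0, false)], [(2, 5), (1, 4)]),
    ([(2, true), (4, false), (3, false), (2, false), (1, false), (0, false)], [(2, 4), (1, 5)]),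
    ([(3, false), (4, false), (3, false), (2, false), (1, false), (0, false)], [(3, 5), (2, 4)]),
    ([(3, true), (4, false), (3, false), (2, false), (1, false), (0, false)], [(3, 4), (2, 5)]),
    ([(4, false), (4, false), (3, false), (2, false), (1, false), (0, false)], [(4, 5), (3, 4)]),
    ([(4, false), (0, false), (3, false), (2, false), (1, false), (0, false)], [(0, 4), (11, 3)]),
    ([(2, false), (0, false), (3, false), (2, false), (1, false), (0, false)], [(2, 5), (1, 4), (0, 4), (11, 3)]),
    ([(2, true), (0, false), (3, false), (2, false), (1, false), (0, false)], [(2, 4), (1, 5), (0, 4), (11, 3)]),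
    ([(3, false), (0, false), (3, false), (2, false), (1, false), (0, false)], [(3, 5), (2, 4), (0, 4), (11, 3)]),
    ([(4, false), (0, true), (3, false), (2, false), (1, false), (0, false)], [(0, 3), (11, 4)]),
    ([(1, true), (0, true), (3, false), (2, false), (1, false), (0, false)], [(1, 4), (0, 5), (0, 3), (11, 4)]),
    ([(2, false), (0, true), (3, false), (2, false), (1, false), (0, false)], [(2, 5), (1, 4), (0, 3), (11, 4)]),
    ([(2, true), (0, true), (3, false), (2, false), (1, false), (0, false)], [(2, 4), (1, 5), (0, 3), (11, 4)]),
    ([(3, false), (0, true), (3, false), (2, false), (1, false), (0, false)], [(3, 5), (2, 4), (0, 3), (11, 4)]),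
    ([(4, false), (1, false), (3, false), (2, false), (1, false), (0, false)], [(1, 4), (0, 3)]),
    ([(0, false), (1, false), (3, false), (2, false), (1, false), (0, false)], [(0, 5), (11, 4), (1, 4), (0, 3)]),
    ([(3, false), (1, false), (3, false), (2, false), (1, false), (0, false)], [(3, 5), (2, 4), (1, 4), (0, 3)]),
    ([(4, false), (1, true), (3, false), (2, false), (1, false), (0, false)], [(1, 3), (0, 4)]),
    ([(2, true), (1, true), (3, false), (2, false), (1, false), (0, false)], [(2, 4), (1, 5), (1, 3), (0, 4)]),
    ([(3, false), (1, true), (3, false), (2, false), (1, false), (0, false)], [(3, 5), (2, 4), (1, 3), (0, 4)]),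
    ([(4, false), (2, false), (3, false), (2, false), (1, false), (0, false)], [(2, 4), (1, 3)]),
    ([(0, false), (2, false), (3, false), (2, false), (1, false), (0, false)], [(0, 5), (11, 4), (2, 4), (1, 3)]),
    ([(0, true), (2, false), (3, false), (2, false), (1, false), (0, false)], [(0, 4), (11, 5), (2, 4), (1, 3)]),
    ([(1, false), (2, false), (3, false), (2, false), (1, false), (0, false)], [(1, 5), (0, 4), (2, 4), (1, 3)]),
    ([(4, false), (2, true), (3, false), (2, false), (1, false), (0, false)], [(2, 3), (1, 4)]),
    ([(0, false), (2, true), (3, false), (2, false), (1, false), (0, false)], [(0, 5), (11, 4), (2, 3), (1, 4)]),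
    ([(0, true), (2, true), (3, false), (2, false), (1, false), (0, false)], [(0, 4), (11, 5), (2, 3), (1, 4)]),
    ([(4, false), (3, false), (3, false), (2, false), (1, false), (0, false)], [(3, 4), (2, 3)]),
    ([(2, true), (3, false), (3, false), (2, false), (1, false), (0, false)], [(2, 4), (1, 5), (3, 4), (2, 3)]),
    ([(4, false), (3, false), (0, false), (2, false), (1, false), (0, false)], [(0, 3), (11, 2)]),
    ([(1, false), (3, false), (0, false), (2, false), (1, false), (0, false)], [(1, 5), (0, 4), (0, 3), (11, 2)]),
    ([(1, true), (3, false), (0, false), (2, false), (1, false), (0, false)], [(1, 4), (0, 5), (0, 3), (11, 2)]),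
    ([(2, false), (3, false), (0, false), (2, false), (1, false), (0, false)], [(2, 5), (1, 4), (0, 3), (11, 2)]),
    ([(2, true), (3, false), (0, false), (2, false), (1, false), (0, false)], [(2, 4), (1, 5), (0, 3), (11, 2)]),
    ([(3, false), (2, false), (0, false), (2, false), (1, false), (0, false)], [(2, 4), (1, 3), (0, 3), (11, 2)]),
    ([(4, false), (3, false), (0, true), (2, false), (1, false), (0, false)], [(0, 2), (11, 3)]),
    ([(1, false), (3, false), (0, true), (2, false), (1, false), (0, false)], [(1, 5), (0, 4), (0, 2), (11, 3)]),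
    ([(1, true), (3, false), (0, true), (2, false), (1, false), (0, false)], [(1, 4), (0, 5), (0, 2), (11, 3)]),
    ([(2, false), (3, false), (0, true), (2, false), (1, false), (0, false)], [(2, 5), (1, 4), (0, 2), (11, 3)]),
    ([(2, true), (3, false), (0, true), (2, false), (1, false), (0, false)], [(2, 4), (1, 5), (0, 2), (11, 3)]),
    ([(3, false), (1, true), (0, true), (2, false), (1, false), (0, false)], [(1, 3), (0, 4), (0, 2), (11, 3)]),
    ([(3, false), (2, false), (0, true), (2, false), (1, false), (0, false)], [(2, 4), (1, 3), (0, 2), (11, 3)]),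
    ([(4, false), (3, false), (1, false), (2, false), (1, false), (0, false)], [(1, 3), (0, 2)]),
    ([(0, false), (3, false), (1, false), (2, false), (1, false), (0, false)], [(0, 5), (11, 4), (1, 3), (0, 2)]),
    ([(0, true), (3, false), (1, false), (2, false), (1, false), (0, false)], [(0, 4), (11, 5), (1, 3), (0, 2)]),
    ([(2, false), (3, false), (1, false), (2, false), (1, false), (0, false)], [(2, 5), (1, 4), (1, 3), (0, 2)]),
    ([(2, true), (3, false), (1, false), (2, false), (1, false), (0, false)], [(2, 4), (1, 5), (1, 3), (0, 2)]),
    ([(3, false), (0, false), (1, false), (2, false), (1, false), (0, false)], [(0, 4), (11, 3), (1, 3), (0, 2)]),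
    ([(4, false), (3, false), (1, true), (2, false), (1, false), (0, false)], [(1, 2), (0, 3)]),
    ([(0, false), (3, false), (1, true), (2, false), (1, false), (0, false)], [(0, 5), (11, 4), (1, 2), (0, 3)]),
    ([(0, true), (3, false), (1, true), (2, false), (1, false), (0, false)], [(0, 4), (11, 5), (1, 2), (0, 3)]),
    ([(4, false), (3, false), (2, false), (2, false), (1, false), (0, false)], [(2, 3), (1, 2)]),
    ([(0, false), (3, false), (2, false), (2, false), (1, false), (0, false)], [(0, 5), (11, 4), (2, 3), (1, 2)]),
    ([(0, true), (3, false), (2, false), (2, false), (1, false), (0, false)], [(0, 4), (11, 5), (2, 3), (1, 2)]),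
    ([(3, false), (1, true), (2, false), (2, false), (1, false), (0, false)], [(1, 3), (0, 4), (2, 3), (1, 2)]),
    ([(4, false), (3, false), (2, false), (0, false), (1, false), (0, false)], [(0, 2), (11, 1)]),
    ([(1, false), (3, false), (2, false), (0, false), (1, false), (0, false)], [(1, 5), (0, 4), (0, 2), (11, 1)]),
    ([(1, true), (3, false), (2, false), (0, false), (1, false), (0, false)], [(1, 4), (0, 5), (0, 2), (11, 1)]),
    ([(2, false), (3, false), (2, false), (0, false), (1, false), (0, false)], [(3, 5), (2, 4), (0, 2), (11, 1)]),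
    ([(2, true), (3, false), (2, false), (0, false), (1, false), (0, false)], [(3, 4), (2, 5), (0, 2), (11, 1)]),
    ([(3, false), (3, false), (2, false), (0, false), (1, false), (0, false)], [(4, 5), (3, 4), (0, 2), (11, 1)]),
    ([(3, false), (1, false), (2, false), (0, false), (1, false), (0, false)], [(1, 4), (0, 3), (0, 2), (11, 1)]),
    ([(3, false), (1, true), (2, false), (0, false), (1, false), (0, false)], [(1, 3), (0, 4), (0, 2), (11, 1)]),
    ([(4, false), (3, false), (2, false), (0, true), (1, false), (0, false)], [(0, 1), (11, 2)]),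
    ([(2, false), (3, false), (2, false), (0, true), (1, false), (0, false)], [(3, 5), (2, 4), (0, 1), (11, 2)]),
    ([(2, true), (3, false), (2, false), (0, true), (1, false), (0, false)], [(3, 4), (2, 5), (0, 1), (11, 2)]),
    ([(3, false), (3, false), (2, false), (0, true), (1, false), (0, false)], [(4, 5), (3, 4), (0, 1), (11, 2)]),
    ([(4, false), (3, false), (2, false), (1, false), (1, false), (0, false)], [(1, 2), (0, 1)]),
    ([(3, false), (3, false), (2, false), (1, false), (1, false), (0, false)], [(4, 5), (3, 4), (1, 2), (0, 1)]),
    ([(3, false), (2, false), (0, true), (1, false), (1, false), (0, false)], [(0, 2), (11, 3), (1, 2), (0, 1)]),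
    ([(4, false), (3, false), (2, false), (1, false), (0, false), (0, false)], [(0, 1), (11, 0)]),
    ([(2, false), (3, false), (2, false), (1, false), (0, false), (0, false)], [(3, 5), (2, 4), (0, 1), (11, 0)]),
    ([(2, true), (3, false), (2, false), (1, false), (0, false), (0, false)], [(3, 4), (2, 5), (0, 1), (11, 0)]),
    ([(3, false), (3, false), (2, false), (1, false), (0, false), (0, false)], [(4, 5), (3, 4), (0, 1), (11, 0)]),
    ([(3, false), (2, false), (2, false), (1, false), (0, false), (0, false)], [(3, 4), (2, 3), (0, 1), (11, 0)])] := by decide +kernel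

theorem dfs6 : ∀ x ∈ gen 6, dfs 6 x = true := by
  rw [gen6]
  simp only [List.forall_mem_cons, List.not_mem_nil, false_implies, implies_true, and_true]
  exact ⟨c0, c1, c2, c3, c4, c5, c6, c7, c8, c9, c10, c11, c12, c13, c14, c15, c16, c17, c18, c19, c20, c21, c22, c23, c24, c25, c26, c27, c28, c29, c30, c31, c32, c33, c34, c35, c36, c37, c38, c39, c40, c41, c42, c43, c44, c45, c46, c47, c48, c49, c50, c51, c52, c53, c54, c55, c56, c57, c58, c59, c60, c61, c62, c63, c64, c65, c66, c67, c68, c69, c70, c71, c72, c73, c74, c75, c76, c77, c78, c79⟩

theorem fin : C.FinStmt := by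
  intro x hx
  exact dfs_gen 6 6 dfs6 x hx

end Pool.Agent.ACK.H88
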