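import Pool.Agent.ACK.StmtsC

/-!
# Squad ACK, row FIN: depth first search
-/

set_option autoImplicit false

namespace Pool.Agent.ACK.H88

open Pool.Agent.ACK Pool.Agent.ACK.C

/-- depth first search -/
def dfs : ℕ → List Tk × List (ℕ × ℕ) → Bool
  | 0, x => finall x.1
  | k + 1, x => (stepl x).all (dfs k)

theorem dfs_gen (k : ℕ) : ∀ j, (∀ x ∈ gen j, dfs k x = true) →
    ∀ y ∈ gen (j + k), finall y.1 = true := by
  induction k with
  | zero =>
    intro j h y hy
    exact h y hy
  | succ k ih =>
    intro j h y hy
    have e : j + (k + 1) = (j + 1) + k := by omega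
    rw [e] at hy
    refine ih (j + 1) ?_ y hy
    intro x hx
    simp only [gen, List.mem_flatMap] at hx
    obtain ⟨z, hz, hxz⟩ := hx
    have := h z hz
    simp only [dfs] at this
    exact List.all_eq_true.1 this x hxz

end Pool.Agent.ACK.H88
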