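import Pool.Agent.Helper88_ACK.FINDfs

/-!
# Squad ACK, row FIN: kernel computation, part 1
-/

set_option autoImplicit false
set_option maxRecDepth 100000

namespace Pool.Agent.ACK.H88

open Pool.Agent.ACK Pool.Agent.ACK.C

theorem c0 : dfs 6
    ([(5, false), (4, false), (3, false), (2, false), (1, false), (0, false)], []) = true := by decide +kernel

theorem c1 : dfs 6
    ([(0, false), (4, false), (3, false), (2, false), (1, false), (0, false)], [(0, 5), (11, 4)]) = true := by decide +kernel

theorem c2 : dfs 6
    ([(0, true), (4, false), (3, false), (2, false), (1, false), (0, false)], [(0, 4), (11, 5)]) = true := by decide +kernel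

theorem c3 : dfs 6
    ([(1, false), (4, false), (3, false), (2, false), (1, false), (0, false)], [(1, 5), (0, 4)]) = true := by decide +kernel

theorem c4 : dfs 6
    ([(1, true), (4, false), (3, false), (2, false), (1, false), (0, false)], [(1, 4), (0, 5)]) = true := by decide +kernel

theorem c5 : dfs 6
    ([(2, false), (4, false), (3, false), (2, false), (1, false), (0, false)], [(2, 5), (1, 4)]) = true := by decide +kernel

theorem c6 : dfs 6
    ([(2, true), (4, false), (3, false), (2, false), (1, false), (0, false)], [(2, 4), (1, 5)]) = true := by decide +kernel

theorem c7 : dfs 6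
    ([(3, false), (4, false), (3, false), (2, false), (1, false), (0, false)], [(3, 5), (2, 4)]) = true := by decide +kernel

theorem c8 : dfs 6
    ([(3, true), (4, false), (3, false), (2, false), (1, false), (0, false)], [(3, 4), (2, 5)]) = true := by decide +kernel

theorem c9 : dfs 6
    ([(4, false), (4, false), (3, false), (2, false), (1, false), (0, false)], [(4, 5), (3, 4)]) = true := by decide +kernel

end Pool.Agent.ACK.H88
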